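import Pool.Agent.Helper381.Riem3
import Pool.Agent.Helper381.Main

namespace Pool.Agent.Results.MP_6d5819_gt.NaganoTorsion

open Pool.Agent.Helper381 Bundle Manifold
open scoped ContDiff

/-- Let `M` be a compact connected Riemannian symmetric space (simply connected or not). If the
total real Betti number of `M` is smaller than the two-number of `M`, then the integral
cohomology of `M` contains an element of order `2`. -/
theorem result {E : Type*} [NormedAddCommGroup E] [NormedSpace ℝ E] [FiniteDimensional ℝ E]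
    {M : Type*} [MetricSpace M] [CompactSpace M] [ConnectedSpace M]
    [ChartedSpace E M] [IsManifold 𝓘(ℝ, E) ∞ M]
    [RiemannianBundle (fun x : M => TangentSpace 𝓘(ℝ, E) x)]
    [IsContMDiffRiemannianBundle 𝓘(ℝ, E) ∞ E (fun x : M => TangentSpace 𝓘(ℝ, E) x)]
    [IsRiemannianManifold 𝓘(ℝ, E) M]
    (_hsym : IsSymmetric M) (h : totalBetti ℝ M < twoNumber M) :
    ∃ n : ℕ, ∃ c : SingularCohomology ℤ M n, addOrderOf c = 2 := by
  obtain ⟨R, G⟩ := riemannian_geo (E := E) (M := M)
  by_contra hcon
  push Not at hcon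
  have htor : ∀ n, ∀ c : SingCoh ℤ M n, (2 : ℤ) • c = 0 → c = 0 := by
    intro n c hc
    by_contra hne
    have hp : Fact (Nat.Prime 2) := ⟨Nat.prime_two⟩
    obtain ⟨e⟩ := singEquiv ℤ M n
    have hc' : (2 : ℕ) • e.symm c = 0 := by
      rw [← natCast_zsmul, ← map_zsmul, Nat.cast_ofNat, hc, map_zero]
    exact hcon n (e.symm c) (addOrderOf_eq_prime hc' (by
      rw [Ne, LinearEquiv.map_eq_zero_iff]; exact hne))
  have h1 := G.total_le_of_torsionfree ℝ htor
  have h2 := G.twoNumber_le
  exact absurd (h2.trans h1) (not_le.mpr h)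

end Pool.Agent.Results.MP_6d5819_gt.NaganoTorsion
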